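import Pool.Agent.Helper12.XG.St

/-!
# Project XG, module FIN: the forms cannot all be small
-/

set_option autoImplicit false

namespace Pool.Agent.Helper15.XG

open Finset Polynomial Pool.Agent.Helper12.XG Pool.Agent.Helper14.GS

/-! ### The polynomial part -/

private lemma DP_monic (n : ℕ) (a : ℕ → ℝ) (m : ℕ → ℕ) : (DP n a m).Monic := by
  unfold DP
  exact monic_prod_of_monic _ _ fun k _ => (monic_X_sub_C _).pow _

private lemma DP_natDegree (n : ℕ) (a : ℕ → ℝ) (c : ℕ) :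
    (DP n a (fun _ => c)).natDegree = n * c := by
  unfold DP
  rw [natDegree_prod_of_monic _ _ fun k _ => (monic_X_sub_C _).pow _]
  simp [natDegree_pow]

private lemma P_facts (n : ℕ) (a : ℕ → ℝ) (c M : ℕ) :
    (((X : ℂ[X]) ^ (M + n * c)) /ₘ DP n a (fun _ => c)).natDegree = M ∧
      (((X : ℂ[X]) ^ (M + n * c)) /ₘ DP n a (fun _ => c)).coeff M = 1 := by
  have h1 := DP_monic n a (fun _ => c)
  have h2 := DP_natDegree n a c
  have h3 : (((X : ℂ[X]) ^ (M + n * c)) /ₘ DP n a (fun _ => c)).natDegree = M := by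
    rw [natDegree_divByMonic _ h1, h2, natDegree_X_pow]
    omega
  refine ⟨h3, ?_⟩
  have h4 : (((X : ℂ[X]) ^ (M + n * c)) /ₘ DP n a (fun _ => c)).leadingCoeff =
      ((X : ℂ[X]) ^ (M + n * c)).leadingCoeff := by
    apply leadingCoeff_divByMonic_of_monic h1
    rw [degree_eq_natDegree h1.ne_zero, h2, degree_X_pow]
    exact_mod_cast (by omega : n * c ≤ M + n * c)
  rw [leadingCoeff, h3] at h4
  rw [h4]
  simp

/-! ### Products of distances -/

private lemma prod_dist {n : ℕ} (b : ℕ) {k : ℕ} (hk : k ∈ range n) {z : ℂ}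
    (hz : ‖z - (((b + (k + 1) : ℕ) : ℝ) : ℂ)‖ = 1 / 2) :
    (1 / 4 : ℝ) ≤ ∏ k' ∈ (range n).erase k, ‖z - (((b + (k' + 1) : ℕ) : ℝ) : ℂ)‖ := by
  have hd : ∀ k' : ℕ, |(k' : ℝ) - k| - 1 / 2 ≤ ‖z - (((b + (k' + 1) : ℕ) : ℝ) : ℂ)‖ := by
    intro k'
    have h1 : ((((k' : ℝ) - k : ℝ)) : ℂ) =
        (z - (((b + (k + 1) : ℕ) : ℝ) : ℂ)) - (z - (((b + (k' + 1) : ℕ) : ℝ) : ℂ)) := by
      push_cast
      ring
    have h2 : |(k' : ℝ) - k| = ‖((((k' : ℝ) - k : ℝ)) : ℂ)‖ := by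
      rw [Complex.norm_real, Real.norm_eq_abs]
    have h3 := norm_sub_le (z - (((b + (k + 1) : ℕ) : ℝ) : ℂ)) (z - (((b + (k' + 1) : ℕ) : ℝ) : ℂ))
    rw [← h1, ← h2, hz] at h3
    linarith
  have h1 : ∏ k' ∈ (range n).erase k, (if k' = k + 1 ∨ k' + 1 = k then (1 / 2 : ℝ) else 1) ≤
      ∏ k' ∈ (range n).erase k, ‖z - (((b + (k' + 1) : ℕ) : ℝ) : ℂ)‖ := by
    apply prod_le_prod
    · intro k' _
      split_ifs <;> norm_num
    · intro k' hk'
      have hne : k' ≠ k := (mem_erase.1 hk').1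
      have h2 := hd k'
      split_ifs with hc
      · have h3 : (1 : ℝ) ≤ |(k' : ℝ) - k| := by
          have h4 : (1 : ℤ) ≤ |(k' : ℤ) - k| := by
            apply Int.one_le_abs
            omega
          exact_mod_cast h4
        linarith
      · have h3 : (2 : ℝ) ≤ |(k' : ℝ) - k| := by
          have h4 : (2 : ℤ) ≤ |(k' : ℤ) - k| := by
            rw [not_or] at hc
            rcases lt_or_ge k k' with h | h
            · rw [abs_of_pos (by omega)]
              omega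
            · rw [abs_of_neg (by omega)]
              omega
          exact_mod_cast h4
        linarith
  refine le_trans ?_ h1
  rw [prod_ite]
  simp only [prod_const, one_pow, mul_one]
  have h2 : (((range n).erase k).filter fun k' => k' = k + 1 ∨ k' + 1 = k).card ≤ 2 := by
    have h3 : (((range n).erase k).filter fun k' => k' = k + 1 ∨ k' + 1 = k) ⊆
        {k + 1, k - 1} := by
      intro k' hk'
      rw [mem_filter] at hk'
      rw [mem_insert, mem_singleton]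
      omega
    exact (card_le_card h3).trans card_le_two
  calc (1 / 4 : ℝ) = (1 / 2) ^ 2 := by norm_num
    _ ≤ (1 / 2) ^ _ := pow_le_pow_of_le_one (by norm_num) (by norm_num) h2

/-! ### Continuity -/

private lemma fI_cont (h q i : ℕ) (β : ℕ → ℕ → ℤ) {a : ℝ} (ha : 0 < a) :
    ContinuousOn (fun x : ℝ => fI h q β i (a + x)) (Set.uIcc 0 1) := by
  unfold fI
  refine continuousOn_finset_sum _ fun j _ => continuousOn_finset_sum _ fun b _ => ?_
  refine ContinuousOn.mul continuousOn_const (ContinuousOn.pow (ContinuousOn.inv₀ ?_ ?_) _)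
  · fun_prop
  · intro x hx
    rw [Set.uIcc_of_le zero_le_one] at hx
    have h1 : (0 : ℝ) ≤ j := Nat.cast_nonneg j
    have h2 := hx.1
    positivity

private lemma ker_cont (h q i : ℕ) (β : ℕ → ℕ → ℤ) {a : ℝ} (ha : 0 < a) :
    ContinuousOn (fun x : ℝ => x ^ (2 * q) * (1 - x) ^ (2 * q) * fI h q β i (a + x))
      (Set.uIcc 0 1) := by
  refine ContinuousOn.mul ?_ (fI_cont h q i β ha)
  fun_prop

private lemma ker_bd (q : ℕ) {x : ℝ} (h0 : 0 ≤ x) (h1 : x ≤ 1) :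
    0 ≤ x ^ (2 * q) * (1 - x) ^ (2 * q) ∧ x ^ (2 * q) * (1 - x) ^ (2 * q) ≤ 1 := by
  have h2 : 0 ≤ 1 - x := by linarith
  exact ⟨by positivity, mul_le_one₀ (pow_le_one₀ h0 h1) (by positivity)
    (pow_le_one₀ h2 (by linarith))⟩

/-! ### Integration -/

private lemma integrate (h q n N₀ c : ℕ) (β : ℕ → ℕ → ℤ) (γ : ℕ → ℕ → ℂ) (μ : ℂ) (B : ℝ)
    (hB : ∀ x : ℝ, 0 ≤ x → x ≤ 1 →
      ‖μ - ∑ k ∈ range n, ∑ i ∈ range c,
        γ k i * (fI h q β i (((N₀ + (k + 1) : ℕ) : ℝ) + x) : ℂ)‖ ≤ B) :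
    ‖μ * ((∫ x in (0 : ℝ)..1, x ^ (2 * q) * (1 - x) ^ (2 * q) : ℝ) : ℂ) -
      ∑ k ∈ range n, ∑ i ∈ range c, γ k i * (Phi h q β i (N₀ + (k + 1)) : ℂ)‖ ≤ B := by
  have hpos : ∀ k : ℕ, (0 : ℝ) < ((N₀ + (k + 1) : ℕ) : ℝ) := fun k => by positivity
  have hB0 : 0 ≤ B := (norm_nonneg _).trans (hB 0 le_rfl zero_le_one)
  -- the integrand
  have e1 : ∀ x : ℝ, ((x ^ (2 * q) * (1 - x) ^ (2 * q) : ℝ) : ℂ) *
      (μ - ∑ k ∈ range n, ∑ i ∈ range c,
        γ k i * (fI h q β i (((N₀ + (k + 1) : ℕ) : ℝ) + x) : ℂ)) =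
      μ * ((x ^ (2 * q) * (1 - x) ^ (2 * q) : ℝ) : ℂ) -
      ∑ k ∈ range n, ∑ i ∈ range c, γ k i *
        ((x ^ (2 * q) * (1 - x) ^ (2 * q) * fI h q β i (((N₀ + (k + 1) : ℕ) : ℝ) + x) : ℝ) : ℂ) := by
    intro x
    rw [mul_sub, mul_sum, mul_comm μ]
    congr 1
    refine sum_congr rfl fun k _ => ?_
    rw [mul_sum]
    refine sum_congr rfl fun i _ => ?_
    push_cast
    ring
  have i1 : IntervalIntegrable (fun x : ℝ => ((x ^ (2 * q) * (1 - x) ^ (2 * q) : ℝ) : ℂ))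
      MeasureTheory.volume 0 1 := by
    apply Continuous.intervalIntegrable
    exact Complex.continuous_ofReal.comp (by fun_prop)
  have c2 : ∀ k i : ℕ, ContinuousOn (fun x : ℝ => γ k i *
      ((x ^ (2 * q) * (1 - x) ^ (2 * q) * fI h q β i (((N₀ + (k + 1) : ℕ) : ℝ) + x) : ℝ) : ℂ))
      (Set.uIcc 0 1) := fun k i =>
    ContinuousOn.mul continuousOn_const
      (Complex.continuous_ofReal.comp_continuousOn (ker_cont h q i β (hpos k)))
  have e2 : ∫ x in (0 : ℝ)..1, (((x ^ (2 * q) * (1 - x) ^ (2 * q) : ℝ) : ℂ) *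
      (μ - ∑ k ∈ range n, ∑ i ∈ range c,
        γ k i * (fI h q β i (((N₀ + (k + 1) : ℕ) : ℝ) + x) : ℂ))) =
      μ * ((∫ x in (0 : ℝ)..1, x ^ (2 * q) * (1 - x) ^ (2 * q) : ℝ) : ℂ) -
      ∑ k ∈ range n, ∑ i ∈ range c, γ k i * (Phi h q β i (N₀ + (k + 1)) : ℂ) := by
    simp only [e1]
    rw [intervalIntegral.integral_sub (i1.const_mul μ), intervalIntegral.integral_const_mul,
      intervalIntegral.integral_ofReal, intervalIntegral.integral_finset_sum]
    · congr 1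
      refine sum_congr rfl fun k _ => ?_
      rw [intervalIntegral.integral_finset_sum]
      · refine sum_congr rfl fun i _ => ?_
        rw [intervalIntegral.integral_const_mul, intervalIntegral.integral_ofReal]
        rfl
      · intro i _
        exact (c2 k i).intervalIntegrable
    · intro k _
      exact (continuousOn_finset_sum _ fun i _ => c2 k i).intervalIntegrable
    · exact (continuousOn_finset_sum _ fun k _ => continuousOn_finset_sum _ fun i _ =>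
        c2 k i).intervalIntegrable
  rw [← e2]
  have h3 := intervalIntegral.norm_integral_le_of_norm_le_const (a := (0 : ℝ)) (b := 1) (C := B)
    (f := fun x : ℝ => (((x ^ (2 * q) * (1 - x) ^ (2 * q) : ℝ) : ℂ) *
      (μ - ∑ k ∈ range n, ∑ i ∈ range c,
        γ k i * (fI h q β i (((N₀ + (k + 1) : ℕ) : ℝ) + x) : ℂ)))) ?_
  · simpa using h3
  · intro x hx
    rw [Set.uIoc_of_le zero_le_one] at hx
    obtain ⟨k0, k1⟩ := ker_bd q hx.1.le hx.2
    rw [norm_mul, Complex.norm_real, Real.norm_eq_abs, abs_of_nonneg k0]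
    calc _ ≤ 1 * B := mul_le_mul k1 (hB x hx.1.le hx.2) (norm_nonneg _) zero_le_one
      _ = B := one_mul B

/-! ### Bound for the rational function -/

private lemma RF_bd (h n c N₀ M : ℕ) (hN : 1 ≤ N₀) {x : ℝ} (hx0 : 0 ≤ x) (hx1 : x ≤ 1) {j : ℕ}
    (hj : j ∈ range (h + 1)) {z : ℂ} (hz : ‖z + (j : ℂ) + (x : ℂ)‖ ≤ 1) :
    ‖RF n (fun k => ((N₀ + (k + 1) : ℕ) : ℝ)) (fun _ => c) ((X : ℂ[X]) ^ (M + n * c)) z‖ ≤
      ((h : ℝ) + 2) ^ (M + n * c) / (N₀ : ℝ) ^ (n * c) := by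
  have hjh : (j : ℝ) ≤ h := by
    have := mem_range.1 hj
    exact_mod_cast (by omega : j ≤ h)
  have hN' : (1 : ℝ) ≤ N₀ := by exact_mod_cast hN
  have h1 : ‖z‖ ≤ (h : ℝ) + 2 := by
    have e : z = (z + (j : ℂ) + (x : ℂ)) - ((j : ℂ) + (x : ℂ)) := by ring
    have h2 : ‖(j : ℂ) + (x : ℂ)‖ ≤ j + x := by
      refine (norm_add_le _ _).trans ?_
      rw [Complex.norm_natCast, Complex.norm_real, Real.norm_eq_abs, abs_of_nonneg hx0]
    rw [e]
    refine (norm_sub_le _ _).trans ?_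
    linarith
  have h2 : ∀ k : ℕ, (N₀ : ℝ) ≤ ‖z - (((N₀ + (k + 1) : ℕ) : ℝ) : ℂ)‖ := by
    intro k
    have e : (((((N₀ + (k + 1) : ℕ) : ℝ) + j + x : ℝ)) : ℂ) =
        (z + (j : ℂ) + (x : ℂ)) - (z - (((N₀ + (k + 1) : ℕ) : ℝ) : ℂ)) := by
      push_cast
      ring
    have h3 := norm_sub_le (z + (j : ℂ) + (x : ℂ)) (z - (((N₀ + (k + 1) : ℕ) : ℝ) : ℂ))
    rw [← e, Complex.norm_real, Real.norm_eq_abs] at h3
    have h4 := le_abs_self (((N₀ + (k + 1) : ℕ) : ℝ) + j + x)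
    have h5 : ((N₀ + (k + 1) : ℕ) : ℝ) = N₀ + (k + 1) := by push_cast; ring
    rw [h5] at h4 h3
    have h6 : (0 : ℝ) ≤ k := Nat.cast_nonneg k
    have h7 : (0 : ℝ) ≤ j := Nat.cast_nonneg j
    rw [h5]
    linarith
  unfold RF
  rw [eval_pow, eval_X, norm_div, norm_pow, norm_prod]
  have h3 : (N₀ : ℝ) ^ (n * c) ≤
      ∏ k ∈ range n, ‖(z - ((((N₀ + (k + 1) : ℕ) : ℝ)) : ℂ)) ^ c‖ := by
    calc (N₀ : ℝ) ^ (n * c) = ∏ _k ∈ range n, (N₀ : ℝ) ^ c := by
          rw [prod_const, card_range, ← pow_mul, mul_comm]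
      _ ≤ _ := by
          apply prod_le_prod
          · intro k _
            positivity
          · intro k _
            rw [norm_pow]
            exact pow_le_pow_left₀ (by positivity) (h2 k) c
  exact div_le_div₀ (by positivity) (pow_le_pow_left₀ (norm_nonneg _) h1 _) (by positivity) h3

/-- **FIN**. -/
theorem hFIN (h1 : StPFE) (h2 : StPFB) (h3 : StRES) (h4 : StPAI) (h5 : StKIN) : StFIN := by
  intro h q Q' N₀ M β Bd V hβ hq hQ hN hV hmom hM hPhi
  set a : ℕ → ℝ := fun k => ((N₀ + (k + 1) : ℕ) : ℝ) with ha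
  set m : ℕ → ℕ := fun _ => q + 1 with hm
  set A : ℂ[X] := (X : ℂ[X]) ^ (M + Q' * (q + 1)) with hA
  have hinj : ∀ k ∈ range Q', ∀ k' ∈ range Q', k ≠ k' → 1 ≤ |a k - a k'| := by
    intro k _ k' _ hne
    have e : a k - a k' = (((k : ℤ) - k' : ℤ) : ℝ) := by
      simp only [ha]
      push_cast
      ring
    rw [e, ← Int.cast_abs]
    have h6 : (1 : ℤ) ≤ |(k : ℤ) - k'| := by
      apply Int.one_le_abs
      omega
    exact_mod_cast h6
  obtain ⟨γ, hγ⟩ := h1 Q' a m A fun k hk k' hk' hne he => by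
    have h6 := hinj k hk k' hk' hne
    rw [he, sub_self, abs_zero] at h6
    linarith
  obtain ⟨hPd, hPc⟩ := P_facts Q' a (q + 1) M
  -- bound for the coefficients
  have hγb : ∀ k ∈ range Q', ∀ i < q + 1, ‖γ k i‖ ≤
      8 ^ (q + 1) * ((N₀ : ℝ) + Q' + 1) ^ (M + Q' * (q + 1)) := by
    intro k hk i hi
    have h6 := (h2 Q' a m A (A /ₘ DP Q' a m) γ hinj hγ k hk).2
      (4 ^ (q + 1) * ((N₀ : ℝ) + Q' + 1) ^ (M + Q' * (q + 1))) (by positivity) ?_ i hi
    · refine h6.trans (le_of_eq ?_)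
      have e : (2 : ℝ) ^ (m k) = 2 ^ (q + 1) := rfl
      rw [e, ← mul_assoc, ← mul_pow]
      norm_num
    · intro z hz
      have hkQ : (k : ℝ) + 1 ≤ Q' := by
        have := mem_range.1 hk
        exact_mod_cast (by omega : k + 1 ≤ Q')
      have hzn : ‖z‖ ≤ (N₀ : ℝ) + Q' + 1 := by
        have e : z = (z - (a k : ℂ)) + (a k : ℂ) := by ring
        have h7 : ‖(a k : ℂ)‖ = N₀ + (k + 1) := by
          rw [Complex.norm_real, Real.norm_eq_abs, abs_of_nonneg (by positivity)]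
          simp only [ha]
          push_cast
          ring
        rw [e]
        refine (norm_add_le _ _).trans ?_
        rw [hz, h7]
        linarith
      have h8 := prod_dist (n := Q') N₀ hk hz
      have h9 : (1 / 4 : ℝ) ^ (q + 1) ≤
          ∏ k' ∈ (range Q').erase k, ‖z - (a k' : ℂ)‖ ^ (m k') := by
        rw [prod_pow]
        exact pow_le_pow_left₀ (by norm_num) h8 _
      have e2 : A.eval z = z ^ (M + Q' * (q + 1)) := by
        rw [hA, eval_pow, eval_X]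
      rw [e2, norm_pow]
      calc ‖z‖ ^ (M + Q' * (q + 1)) ≤ ((N₀ : ℝ) + Q' + 1) ^ (M + Q' * (q + 1)) :=
            pow_le_pow_left₀ (norm_nonneg _) hzn _
        _ = 4 ^ (q + 1) * ((N₀ : ℝ) + Q' + 1) ^ (M + Q' * (q + 1)) * (1 / 4) ^ (q + 1) := by
            have e3 : (4 : ℝ) ^ (q + 1) * (1 / 4) ^ (q + 1) = 1 := by
              rw [← mul_pow]
              norm_num
            linear_combination -((N₀ : ℝ) + Q' + 1) ^ (M + Q' * (q + 1)) * e3
        _ ≤ _ := mul_le_mul_of_nonneg_left h9 (by positivity)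
  -- the pointwise bound
  set S : ℝ := ((h : ℝ) + 2) ^ (M + Q' * (q + 1)) / (N₀ : ℝ) ^ (Q' * (q + 1)) with hS
  have hS0 : 0 ≤ S := by positivity
  have hpt : ∀ x : ℝ, 0 ≤ x → x ≤ 1 →
      ‖(mom h q β M : ℂ) - ∑ k ∈ range Q', ∑ i ∈ range (q + 1),
        γ k i * (fI h q β i (((N₀ + (k + 1) : ℕ) : ℝ) + x) : ℂ)‖ ≤ ((h : ℝ) + 1) * q * Bd * S := by
    intro x hx0 hx1
    have h6 := h3 h q Q' β Bd a m A (A /ₘ DP Q' a m) γ x 1 S hβ hx0 le_rfl hS0 ?_ hγ ?_
    · have h7 := h4 h q M β hmom (A /ₘ DP Q' a m) hPd.le (x : ℂ)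
      rw [h7, hPc, one_mul] at h6
      exact h6
    · intro k _
      simp only [ha]
      push_cast
      have h8 : (1 : ℝ) ≤ N₀ := by exact_mod_cast hN
      have h9 : (0 : ℝ) ≤ k := Nat.cast_nonneg k
      linarith
    · intro j hj z hz
      exact RF_bd h Q' (q + 1) N₀ M hN hx0 hx1 hj hz
  have hint := integrate h q Q' N₀ (q + 1) β γ (mom h q β M : ℂ) _ hpt
  -- conclusion
  have hK := h5 q hq
  have hmn : (1 : ℝ) ≤ ‖(mom h q β M : ℂ)‖ := by
    rw [Complex.norm_intCast]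
    have h6 : (1 : ℤ) ≤ |mom h q β M| := Int.one_le_abs hM
    exact_mod_cast h6
  have hsum : ‖∑ k ∈ range Q', ∑ i ∈ range (q + 1), γ k i * (Phi h q β i (N₀ + (k + 1)) : ℂ)‖ ≤
      (Q' : ℝ) * (q + 1) * 8 ^ (q + 1) * ((N₀ : ℝ) + Q' + 1) ^ (M + Q' * (q + 1)) * V := by
    refine (norm_sum_le _ _).trans ?_
    calc _ ≤ ∑ _k ∈ range Q', ((q : ℝ) + 1) *
          (8 ^ (q + 1) * ((N₀ : ℝ) + Q' + 1) ^ (M + Q' * (q + 1)) * V) := by
          refine sum_le_sum fun k hk => ?_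
          refine (norm_sum_le _ _).trans ?_
          calc _ ≤ ∑ _i ∈ range (q + 1),
                (8 ^ (q + 1) * ((N₀ : ℝ) + Q' + 1) ^ (M + Q' * (q + 1)) * V) := by
                refine sum_le_sum fun i hi => ?_
                rw [norm_mul, Complex.norm_real, Real.norm_eq_abs]
                have hi' := mem_range.1 hi
                have hk' := mem_range.1 hk
                exact mul_le_mul (hγb k hk i hi')
                  (hPhi (k + 1) (by omega) (by omega) i (by omega)) (abs_nonneg _) (by positivity)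
            _ = _ := by
                rw [sum_const, card_range, nsmul_eq_mul]
                push_cast
                ring
      _ = _ := by
          rw [sum_const, card_range, nsmul_eq_mul]
          ring
  have hKn : ‖(mom h q β M : ℂ) * ((∫ x in (0 : ℝ)..1, x ^ (2 * q) * (1 - x) ^ (2 * q) : ℝ) : ℂ)‖ =
      ‖(mom h q β M : ℂ)‖ * ∫ x in (0 : ℝ)..1, x ^ (2 * q) * (1 - x) ^ (2 * q) := by
    rw [norm_mul, Complex.norm_real, Real.norm_eq_abs, abs_of_nonneg]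
    exact le_trans (by positivity) hK
  have hlow : (1 / 64 : ℝ) ^ q ≤
      ‖(mom h q β M : ℂ) * ((∫ x in (0 : ℝ)..1, x ^ (2 * q) * (1 - x) ^ (2 * q) : ℝ) : ℂ)‖ := by
    rw [hKn]
    have h6 : (0 : ℝ) ≤ (1 / 64) ^ q := by positivity
    nlinarith
  have htri := norm_sub_norm_le
    ((mom h q β M : ℂ) * ((∫ x in (0 : ℝ)..1, x ^ (2 * q) * (1 - x) ^ (2 * q) : ℝ) : ℂ))
    (∑ k ∈ range Q', ∑ i ∈ range (q + 1), γ k i * (Phi h q β i (N₀ + (k + 1)) : ℂ))
  linarith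

end Pool.Agent.Helper15.XG
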