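import Pool.Agent.Helper12.XG.St2
import Pool.Agent.Helper6.GS.M_D13

/-!
# Project XG, module TWL: linear forms in the logarithms of two primes, explicit exponent

The proof of `Pool.Agent.Helper6.GS.D13` with the exponent made explicit.
-/

set_option autoImplicit false

namespace Pool.Agent.Helper15.XG

open Finset Polynomial Pool.Agent.Helper12.XG Pool.Agent.Helper14.GS Pool.Agent.Helper6.GS

private lemma two_logs (h11 : StD11) {p q : ℕ} (hp : p.Prime) (hq : q.Prime) (hpq : p ≠ q)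
    {C3 : ℕ} (hC3 : 1 ≤ C3)
    (hdex : ∀ N : ℕ, ∃ d : ℕ, 1 ≤ d ∧ d ≤ C3 ^ N ∧ ∀ r : ℕ, 1 ≤ r → r ≤ N → r ∣ d)
    {c c₀ L T k k₀ κ n₀ : ℕ} (hc : Real.log p + Real.log q + 1 ≤ c)
    (hC3e : (C3 : ℝ) ≤ Real.exp c₀) (hL : 1 ≤ L) (hT : 1 ≤ T) (hk : 1 ≤ k)
    (hall : ∀ n : ℕ, n₀ ≤ n → ∃ K : ℕ, K ≤ κ * n ∧ L ^ 2 ≤ (2 * k₀ + 1) * n ∧
      2 * L ^ 2 * (k * n) ≤ ((2 * k₀ + 1) * n + 1 - L ^ 2) * T ^ 2 ∧
      2 * (k * n) ≤ ((2 * k₀ + 1) * n + 1 - L ^ 2) * T ∧ T * (T + K) ≤ k * n * L ^ 2 ∧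
      ∀ B d : ℝ, 1 ≤ B → B ≤ Real.exp n → 1 ≤ d → d ≤ Real.exp (c₀ * n) →
        d ^ (T * (k * n * L ^ 2)) * (k * n * L ^ 2).factorial *
          (2 * ((2 : ℝ) ^ ((3 * ((2 * k₀ + 1) * n) + 1 + n) * k) * (2 * L * B) ^ T *
            Real.exp (L * c * (3 * ((2 * k₀ + 1) * n))))) ^ (k * n * L ^ 2)
          < (3 : ℝ) ^ (T * (K * (K - 1) / 2))) :
    ∃ c' : ℝ, 0 < c' ∧ ∀ a b : ℕ, 1 ≤ a → 1 ≤ b →
      c' * ((a : ℝ) + b) ^ (-(2 * κ + 1 : ℝ)) ≤ |a * Real.log p - b * Real.log q| := by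
  have hP := log_ge hp
  have hQ := log_ge hq
  have hC3p : (0 : ℝ) < C3 := by exact_mod_cast (by omega : 0 < C3)
  obtain ⟨B₀, hB₀⟩ : ∃ B₀ : ℕ, B₀ = 3 ^ n₀ + (L + 2 * (L * c + 1) + 1) := ⟨_, rfl⟩
  -- small pairs
  obtain ⟨c1, hc1p, hc1⟩ := ex_pos
    (((Finset.range B₀) ×ˢ (Finset.range B₀)).filter fun z : ℕ × ℕ => 1 ≤ z.1)
    (fun z => |z.1 * Real.log p - z.2 * Real.log q|)
    (fun z hz => lin_ne hp hq hpq (Finset.mem_filter.1 hz).2)
  set c2 : ℝ := (2 * L * (2 * k₀ + 1) * Real.exp (2 * κ + 1))⁻¹ with hc2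
  have hLp : (0 : ℝ) < L := by exact_mod_cast (by omega : 0 < L)
  have hc2p : 0 < c2 := by positivity
  have hκ : (0 : ℝ) < 2 * κ + 1 := by positivity
  -- coprime pairs
  have key : ∀ a b : ℕ, Nat.Coprime a b → 1 ≤ a → 1 ≤ b →
      min 1 (min c1 c2) * ((a : ℝ) + b) ^ (-(2 * κ + 1 : ℝ)) ≤
        |a * Real.log p - b * Real.log q| := by
    intro a b hab ha hb
    have hapos : (1 : ℝ) ≤ a := by exact_mod_cast ha
    have hbpos : (1 : ℝ) ≤ b := by exact_mod_cast hb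
    have hB1 : (1 : ℝ) ≤ (a : ℝ) + b := by linarith
    have hr1 : ((a : ℝ) + b) ^ (-(2 * κ + 1 : ℝ)) ≤ 1 :=
      Real.rpow_le_one_of_one_le_of_nonpos hB1 (by linarith)
    have hr0 : 0 ≤ ((a : ℝ) + b) ^ (-(2 * κ + 1 : ℝ)) := Real.rpow_nonneg (by linarith) _
    rcases le_or_gt 1 |a * Real.log p - b * Real.log q| with h1 | h1
    · calc min 1 (min c1 c2) * ((a : ℝ) + b) ^ (-(2 * κ + 1 : ℝ)) ≤ 1 * 1 :=
          mul_le_mul (min_le_left _ _) hr1 hr0 zero_le_one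
        _ = 1 := one_mul _
        _ ≤ _ := h1
    rcases lt_or_ge (a + b) B₀ with h2 | h2
    · have h3 := hc1 (a, b) (Finset.mem_filter.2 ⟨Finset.mem_product.2
        ⟨Finset.mem_range.2 (by simp only; omega), Finset.mem_range.2 (by simp only; omega)⟩, ha⟩)
      calc min 1 (min c1 c2) * ((a : ℝ) + b) ^ (-(2 * κ + 1 : ℝ)) ≤ c1 * 1 :=
          mul_le_mul ((min_le_right _ _).trans (min_le_left _ _)) hr1 hr0 hc1p.le
        _ = c1 := mul_one _
        _ ≤ _ := h3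
    · have hLb : L ≤ b := big (y := Real.log q) (c := c) hP (by linarith) (by linarith) h1
        (by have := Nat.one_le_pow n₀ 3 (by norm_num); omega)
      have hLa : L ≤ a := by
        refine big (b := a) (a := b) hQ (y := Real.log p) (c := c) (by linarith)
          (by linarith) ?_ (by have := Nat.one_le_pow n₀ 3 (by norm_num); omega)
        rw [abs_sub_comm]
        exact h1
      set n := ⌈Real.log ((a : ℝ) + b)⌉₊ with hn
      have hn1 : Real.log ((a : ℝ) + b) ≤ n := Nat.le_ceil _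
      have hlog0 : 0 ≤ Real.log ((a : ℝ) + b) := Real.log_nonneg hB1
      have hn2 : (n : ℝ) ≤ Real.log ((a : ℝ) + b) + 1 := (Nat.ceil_lt_add_one hlog0).le
      have hBe : (a : ℝ) + b ≤ Real.exp n := (Real.log_le_iff_le_exp (by linarith)).1 hn1
      have hn0 : n₀ ≤ n := by
        have h5 : (3 : ℝ) ^ n₀ ≤ (a : ℝ) + b := by
          have : 3 ^ n₀ ≤ a + b := by omega
          exact_mod_cast this
        have h6 : Real.exp n₀ ≤ (3 : ℝ) ^ n₀ := by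
          have h7 : Real.exp 1 ≤ 3 := by
            have := Real.exp_one_lt_d9
            linarith
          calc Real.exp n₀ = Real.exp 1 ^ n₀ := by rw [← Real.exp_nat_mul, mul_one]
            _ ≤ _ := pow_le_pow_left₀ (Real.exp_pos _).le h7 _
        have h7 : Real.exp n₀ ≤ Real.exp n := h6.trans (h5.trans hBe)
        have h8 := Real.exp_le_exp.1 h7
        exact_mod_cast h8
      have hn3 : 1 ≤ n := by
        have h5 : 0 < Real.log ((a : ℝ) + b) := Real.log_pos (by linarith)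
        exact Nat.one_le_iff_ne_zero.2 (fun h6 => by
          rw [h6, Nat.cast_zero] at hn1
          linarith)
      obtain ⟨d, hd1, hd2, hd3⟩ := hdex n
      have hde : (d : ℝ) ≤ Real.exp (c₀ * n) := by
        calc (d : ℝ) ≤ ((C3 ^ n : ℕ) : ℝ) := by exact_mod_cast hd2
          _ = (C3 : ℝ) ^ n := by push_cast; rfl
          _ ≤ (Real.exp c₀) ^ n := pow_le_pow_left₀ hC3p.le hC3e _
          _ = Real.exp (c₀ * n) := by rw [← Real.exp_nat_mul, mul_comm]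
      have h9 := mainStep h11 hp hq hpq (c₀ := c₀) (κ := κ) hL hT hk hc hn3 hd1 hde hd3
        (hall n hn0) hab hLa hLb (by push_cast; exact hBe)
      have h10 := numC (x := |a * Real.log p - b * Real.log q|) (B := (a : ℝ) + b)
        (by linarith) hn2 hL h9 (abs_nonneg _)
      refine le_trans ?_ h10
      rw [← hc2]
      exact mul_le_mul_of_nonneg_right ((min_le_right _ _).trans (min_le_right _ _)) hr0
  refine ⟨min 1 (min c1 c2), lt_min one_pos (lt_min hc1p hc2p), ?_⟩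
  intro a b ha hb
  obtain ⟨g, a', b', hg, hcop, rfl, rfl⟩ := Nat.exists_coprime' (m := a) (n := b)
    (Nat.gcd_pos_of_pos_left _ (by omega))
  have ha' : 1 ≤ a' := Nat.one_le_iff_ne_zero.2 (fun h => by simp [h] at ha)
  have hb' : 1 ≤ b' := Nat.one_le_iff_ne_zero.2 (fun h => by simp [h] at hb)
  have hapos : (1 : ℝ) ≤ a' := by exact_mod_cast ha'
  have hbpos : (1 : ℝ) ≤ b' := by exact_mod_cast hb'
  have hg1 : (1 : ℝ) ≤ g := by exact_mod_cast hg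
  have h1 := key a' b' hcop ha' hb'
  have h2 : |((a' * g : ℕ) : ℝ) * Real.log p - ((b' * g : ℕ) : ℝ) * Real.log q| =
      g * |a' * Real.log p - b' * Real.log q| := by
    have e : ((a' * g : ℕ) : ℝ) * Real.log p - ((b' * g : ℕ) : ℝ) * Real.log q =
        g * (a' * Real.log p - b' * Real.log q) := by
      push_cast
      ring
    rw [e, abs_mul, abs_of_nonneg (by linarith : (0 : ℝ) ≤ g)]
  have h3 : (((a' * g : ℕ) : ℝ) + ((b' * g : ℕ) : ℝ)) ^ (-(2 * κ + 1 : ℝ)) ≤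
      ((a' : ℝ) + b') ^ (-(2 * κ + 1 : ℝ)) := by
    refine Real.rpow_le_rpow_of_nonpos (by linarith) ?_ (by linarith)
    push_cast
    nlinarith
  have h4 : (0 : ℝ) ≤ min 1 (min c1 c2) := (lt_min one_pos (lt_min hc1p hc2p)).le
  rw [h2]
  calc min 1 (min c1 c2) * (((a' * g : ℕ) : ℝ) + ((b' * g : ℕ) : ℝ)) ^ (-(2 * κ + 1 : ℝ)) ≤
      min 1 (min c1 c2) * ((a' : ℝ) + b') ^ (-(2 * κ + 1 : ℝ)) :=
        mul_le_mul_of_nonneg_left h3 h4
    _ ≤ |a' * Real.log p - b' * Real.log q| := h1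
    _ ≤ g * |a' * Real.log p - b' * Real.log q| := by
      nlinarith [abs_nonneg ((a' : ℝ) * Real.log p - b' * Real.log q)]

/-- **TWL**. -/
theorem hTWL (h11 : StD11) (hN : StTWN) (hA3 : StA3) : StTWL := by
  obtain ⟨C3, hC3, hdex⟩ := hA3
  obtain ⟨c₀, hc₀⟩ := exists_nat_ge (Real.log C3 + 1)
  have hC3p : (0 : ℝ) < C3 := by exact_mod_cast (by omega : 0 < C3)
  have hlogC : 0 ≤ Real.log C3 := Real.log_nonneg (by exact_mod_cast hC3)
  have hc₀1 : 1 ≤ c₀ := by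
    have : (1 : ℝ) ≤ c₀ := by linarith
    exact_mod_cast this
  have hC3e : (C3 : ℝ) ≤ Real.exp c₀ := by
    rw [← Real.log_le_iff_le_exp hC3p]
    linarith
  obtain ⟨Γ, hΓ⟩ := hN c₀ hc₀1
  refine ⟨18 * Γ + 1, by positivity, ?_⟩
  intro p q hp hq hpq
  have hlog2 : ∀ r : ℕ, r.Prime → (69 / 100 : ℝ) ≤ Real.log r := fun r hr => by
    have h1 : Real.log 2 ≤ Real.log r :=
      Real.log_le_log (by norm_num) (by exact_mod_cast hr.two_le)
    have h2 := Real.log_two_gt_d9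
    linarith
  have hP := hlog2 p hp
  have hQ := hlog2 q hq
  set s : ℝ := Real.log p + Real.log q with hs
  have hs1 : 1 ≤ s := by linarith
  set c : ℕ := ⌈s + 1⌉₊ with hcd
  have hc : s + 1 ≤ c := Nat.le_ceil _
  have hc3 : (c : ℝ) ≤ 3 * s := by
    have := Nat.ceil_lt_add_one (by linarith : 0 ≤ s + 1)
    linarith
  have hc1 : 1 ≤ c := by
    have : (1 : ℝ) ≤ c := by linarith
    exact_mod_cast this
  obtain ⟨L, T, k, k₀, κ, n₀, hκ, hL, hT, hk, hall⟩ := hΓ c hc1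
  obtain ⟨c', hc'0, hc'⟩ := two_logs h11 hp hq hpq hC3 hdex hc hC3e hL hT hk hall
  refine ⟨c', hc'0, fun a b ha hb => le_trans ?_ (hc' a b ha hb)⟩
  have hκ' : (κ : ℝ) ≤ Γ * (c : ℝ) ^ 2 := by exact_mod_cast hκ
  have hexp : 2 * (κ : ℝ) + 1 ≤ (18 * Γ + 1) * s ^ 2 := by
    have h1 : (c : ℝ) ^ 2 ≤ (3 * s) ^ 2 := pow_le_pow_left₀ (Nat.cast_nonneg _) hc3 2
    have h2 : (Γ : ℝ) * (c : ℝ) ^ 2 ≤ Γ * (3 * s) ^ 2 :=
      mul_le_mul_of_nonneg_left h1 (Nat.cast_nonneg _)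
    have h3 : 1 ≤ s ^ 2 := one_le_pow₀ hs1
    nlinarith
  have hab : (1 : ℝ) ≤ (a : ℝ) + b := by
    have h1 : (1 : ℝ) ≤ a := by exact_mod_cast ha
    have h2 : (0 : ℝ) ≤ b := Nat.cast_nonneg b
    linarith
  exact mul_le_mul_of_nonneg_left
    (Real.rpow_le_rpow_of_exponent_le hab (by linarith)) hc'0.le

end Pool.Agent.Helper15.XG
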